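import Pool.Agent.helper37.NE.SpecB

/-!
# THEOREM NE (MP_baa4d7_al), row YRS: restriction of `ψ'` to `L`
-/

set_option autoImplicit false

namespace Pool.Agent.NE

open Pool.Agent.helper58.DC Pool.Agent.DI Pool.Agent.GR Pool.Agent.OB Pool.Agent.DR Pool.Agent.FI Pool.Agent.FI3 Pool.Agent.FI4 Pool.Agent.FI4I Pool.Agent.LE Pool.Agent.L5 Pool.Agent.NAB Pool.Agent.ND

theorem YRS (hYCL : YCL_stmt) (hQRS : QRS_stmt) (hFEQ : FEQ_stmt) (hB2 : B2_stmt) : YRS_stmt := by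
  classical
  intro G _ _ C L w hw hCL ψ hψ ψ' hψ' hmt f
  obtain ⟨-, -, h01, hiff⟩ := hYCL G L w hw
  have hS : {φ : G → ℂ | ∃ k : ℕ, φ = cjF (w ^ k) ψ} ⊆ IrrOn L := by
    rintro _ ⟨k, rfl⟩
    have h1 : w ^ k ∈ nz L := Subgroup.pow_mem _ hw k
    obtain ⟨-, ⟨-, -, -, h2, -, -⟩, -, h3, -⟩ := hFEQ G ⊥ (w ^ k) 1 L L L ψ ψ ψ
    have h4 := h3.1 hψ
    rwa [h2.2 h1] at h4
  have hfin := (hB2 G L).1
  have hSf := hfin.subset hS
  have hval : ∀ x ∈ L, ψ' x = ∑ φ ∈ hSf.toFinset, φ x := by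
    intro x hx
    rw [(hQRS G (Nw L w) L le_sup_left ψ' hψ').2 x hx, finsum_mem_eq_finite_toFinset_sum _ hfin]
    symm
    apply Finset.sum_subset_zero_on_sdiff
    · intro φ hφ
      rw [Set.Finite.mem_toFinset] at hφ ⊢
      exact hS hφ
    · intro φ hφ
      rw [Finset.mem_sdiff, Set.Finite.mem_toFinset, Set.Finite.mem_toFinset] at hφ
      have h5 : mt L ψ' φ = 0 := by
        by_contra h
        exact hφ.2 ((hiff ψ' hψ' ψ hψ φ hφ.1 hmt).1 h)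
      rw [h5, zero_mul]
    · intro φ hφ
      rw [Set.Finite.mem_toFinset] at hφ
      have h6 : mt L ψ' φ = 1 := (h01 ψ' hψ' φ (hS hφ)).resolve_left ((hiff ψ' hψ' ψ hψ φ (hS hφ) hmt).2 hφ)
      rw [h6, one_mul]
  rw [finsum_mem_eq_finite_toFinset_sum _ hSf]
  unfold Pool.Agent.FI.mt
  rw [← Finset.sum_div]
  congr 1
  have hC : (C : Set G).Finite := Set.toFinite _
  simp_rw [finsum_mem_eq_finite_toFinset_sum _ hC]
  rw [Finset.sum_comm]
  refine Finset.sum_congr rfl fun x hx => ?_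
  rw [Set.Finite.mem_toFinset] at hx
  rw [hval x (hCL hx), Finset.sum_mul]

end Pool.Agent.NE
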